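import Pool.Agent.Helper14_DK.Stmts

set_option autoImplicit false

open MeasureTheory Filter Topology Set Metric
open scoped ContDiff

namespace Pool.Agent.DK.H20

/-- smooth step down -/
noncomputable def hh (x : ℝ) : ℝ := 1 - Real.smoothTransition x

theorem hh_smooth {m : ℕ∞} : ContDiff ℝ m hh := contDiff_const.sub Real.smoothTransition.contDiff

theorem hh_one {x : ℝ} (hx : x ≤ 0) : hh x = 1 := by
  unfold hh; rw [Real.smoothTransition.zero_of_nonpos hx]; ring

theorem hh_zero {x : ℝ} (hx : 1 ≤ x) : hh x = 0 := by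
  unfold hh; rw [Real.smoothTransition.one_of_one_le hx]; ring

theorem norm_iter_const (i : ℕ) (c x : ℝ) : ‖iteratedFDeriv ℝ i (fun _ : ℝ => c) x‖ ≤ |c| := by
  rcases Nat.eq_zero_or_pos i with h | h
  · subst h
    rw [norm_iteratedFDeriv_zero, Real.norm_eq_abs]
  · rw [iteratedFDeriv_const_of_ne (by omega)]
    simp

theorem hh_bdd (i : ℕ) : ∃ C : ℝ, 0 ≤ C ∧ ∀ x : ℝ, ‖iteratedFDeriv ℝ i hh x‖ ≤ C := by
  have hc : Continuous (iteratedFDeriv ℝ i hh) :=
    (hh_smooth (m := ⊤)).continuous_iteratedFDeriv (by exact_mod_cast le_top)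
  obtain ⟨C, hC⟩ := (isCompact_Icc (a := (0:ℝ)) (b := 1)).exists_bound_of_continuousOn
    hc.continuousOn
  refine ⟨max C 1, le_trans zero_le_one (le_max_right _ _), ?_⟩
  intro x
  rcases lt_or_ge x 0 with h0 | h0
  · have hev : hh =ᶠ[𝓝 x] fun _ => (1:ℝ) := by
      filter_upwards [Iio_mem_nhds h0] with y hy
      exact hh_one (le_of_lt hy)
    rw [(hev.iteratedFDeriv ℝ i).eq_of_nhds]
    refine (norm_iter_const i 1 x).trans ?_
    rw [abs_one]
    exact le_max_right _ _
  · rcases le_or_gt x 1 with h1 | h1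
    · exact (hC x ⟨h0, h1⟩).trans (le_max_left _ _)
    · have hev : hh =ᶠ[𝓝 x] fun _ => (0:ℝ) := by
        filter_upwards [Ioi_mem_nhds h1] with y hy
        exact hh_zero (le_of_lt hy)
      rw [(hev.iteratedFDeriv ℝ i).eq_of_nhds]
      refine (norm_iter_const i 0 x).trans ?_
      rw [abs_zero]
      exact le_trans zero_le_one (le_max_right _ _)

theorem cut : CutStmt := by
  intro n _ ρ κ₀ hN κ m F hκ hκ₀ hF
  have hκ1 : κ < 1 := lt_of_le_of_lt hκ₀ hN.lt_one
  have hcont : Continuous ρ := hN.smooth.continuous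
  set ζ : E n → ℝ := fun z => hh (4 * ρ z / κ - 2) with hζ
  have hζs : ContDiff ℝ ∞ ζ := by
    apply (hh_smooth (m := ⊤)).comp
    exact ((contDiff_const.mul hN.smooth).div_const κ).sub contDiff_const
  have hζ1 : ∀ z, ρ z < κ / 2 → ζ z = 1 := by
    intro z hz
    apply hh_one
    rw [sub_nonpos, div_le_iff₀ hκ]
    linarith
  have hζ0 : ∀ z, 3 * κ / 4 ≤ ρ z → ζ z = 0 := by
    intro z hz
    apply hh_zero
    rw [le_sub_iff_add_le, le_div_iff₀ hκ]
    linarith
  refine ⟨fun z => ζ z • F z, ?_, ?_, ?_⟩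
  · rw [contDiff_iff_contDiffAt]
    intro z
    rcases lt_or_ge (ρ z) κ with h | h
    · have hopen : IsOpen {z | ρ z < κ} := isOpen_lt hcont continuous_const
      have h1 : ContDiffAt ℝ m F z := (hF z h).contDiffAt (hopen.mem_nhds h)
      exact (hζs.contDiffAt.of_le (by exact_mod_cast le_top)).smul h1
    · have hopen : IsOpen {z | 3 * κ / 4 < ρ z} := isOpen_lt continuous_const hcont
      have hz : z ∈ {z | 3 * κ / 4 < ρ z} := by
        show 3 * κ / 4 < ρ z
        linarith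
      have hev : (fun z => ζ z • F z) =ᶠ[𝓝 z] fun _ => (0:ℂ) := by
        filter_upwards [hopen.mem_nhds hz] with y hy
        rw [hζ0 y (le_of_lt hy), zero_smul]
      exact contDiffAt_const.congr_of_eventuallyEq hev
  · apply HasCompactSupport.intro hN.cpt
    intro z hz
    have h1 : (1:ℝ) - ρ z = 0 :=
      image_eq_zero_of_notMem_tsupport (f := fun z => 1 - ρ z) (x := z) hz
    have h2 : ρ z = 1 := by linarith
    have h3 : ζ z = 0 := hζ0 z (by rw [h2]; linarith)
    rw [h3, zero_smul]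
  · intro z hz
    show ζ z • F z = F z
    rw [hζ1 z hz, one_smul]

theorem rho_bdd {n : ℕ} {ρ : E n → ℝ} {κ₀ : ℝ} (hN : Nice n ρ κ₀) (i : ℕ) :
    ∃ C : ℝ, 0 ≤ C ∧ ∀ x, ‖iteratedFDeriv ℝ i (fun z => 1 - ρ z) x‖ ≤ C := by
  have hs : ContDiff ℝ ∞ (fun z => 1 - ρ z) := contDiff_const.sub hN.smooth
  have hc : Continuous (iteratedFDeriv ℝ i (fun z => 1 - ρ z)) :=
    hs.continuous_iteratedFDeriv (by exact_mod_cast le_top)
  obtain ⟨C, hC⟩ := hc.bounded_above_of_compact_support (hN.cpt.iteratedFDeriv i)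
  exact ⟨C, (norm_nonneg _).trans (hC 0), hC⟩

theorem cutf : CutfStmt := by
  intro n _ ρ κ₀ hN
  choose M hM0 hM using rho_bdd hN
  choose H hH0 hH using hh_bdd
  -- the bounds up to order l
  let MM : ℕ → ℝ := fun l => 1 + ∑ i ∈ Finset.range (l + 1), M i
  let HH : ℕ → ℝ := fun l => ∑ i ∈ Finset.range (l + 1), H i
  have hMM1 : ∀ l, 1 ≤ MM l := fun l => by
    have : 0 ≤ ∑ i ∈ Finset.range (l + 1), M i := Finset.sum_nonneg (fun i _ => hM0 i)
    show 1 ≤ 1 + _
    linarith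
  have hMMi : ∀ l i, i ≤ l → M i ≤ MM l := fun l i hi => by
    have := Finset.single_le_sum (f := M) (fun i _ => hM0 i) (Finset.mem_range.2
      (show i < l + 1 by omega))
    show M i ≤ 1 + _
    linarith
  have hHHi : ∀ l i, i ≤ l → H i ≤ HH l := fun l i hi =>
    Finset.single_le_sum (f := H) (fun i _ => hH0 i) (Finset.mem_range.2
      (show i < l + 1 by omega))
  refine ⟨fun l => (l.factorial : ℝ) * HH l * (4 * MM l) ^ l, ?_⟩
  intro κ hκ hκ₀
  have hκ1 : κ < 1 := lt_of_le_of_lt hκ₀ hN.lt_one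
  set f : E n → ℝ := fun z => (4 / κ - 1) + (-(4 / κ)) • (1 - ρ z) with hf
  have hfe : ∀ z, f z = 4 * ρ z / κ - 1 := by
    intro z
    rw [hf]
    simp only [smul_eq_mul]
    field_simp
    ring
  have hus : ContDiff ℝ ∞ (fun z => 1 - ρ z) := contDiff_const.sub hN.smooth
  have hfs : ContDiff ℝ ∞ f := contDiff_const.add (hus.const_smul (-(4 / κ)))
  refine ⟨hh ∘ f, (hh_smooth (m := ⊤)).comp hfs, ?_, ?_, ?_⟩
  · intro z hz
    show hh (f z) = 1
    apply hh_one
    rw [hfe, sub_nonpos, div_le_iff₀ hκ]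
    linarith
  · intro z hz
    show hh (f z) = 0
    apply hh_zero
    rw [hfe, le_sub_iff_add_le, le_div_iff₀ hκ]
    linarith
  · intro l z
    have hD : ∀ i, 1 ≤ i → i ≤ l → ‖iteratedFDeriv ℝ i f z‖ ≤ (4 * MM l * κ⁻¹) ^ i := by
      intro i hi1 hil
      have e1 : iteratedFDeriv ℝ i f z
          = (-(4 / κ)) • iteratedFDeriv ℝ i (fun z => 1 - ρ z) z := by
        have e2 := iteratedFDeriv_add_apply (i := i) (x := z)
          (f := fun _ : E n => (4 / κ - 1 : ℝ))
          (g := fun z => (-(4 / κ)) • (1 - ρ z)) contDiffAt_const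
          ((hus.const_smul (-(4 / κ))).contDiffAt.of_le (by exact_mod_cast le_top))
        have e3 := iteratedFDeriv_const_smul_apply' (a := (-(4 / κ) : ℝ)) (i := i) (x := z)
          (f := fun z => 1 - ρ z) (hus.contDiffAt.of_le (by exact_mod_cast le_top))
        have e4 : iteratedFDeriv ℝ i (fun _ : E n => (4 / κ - 1 : ℝ)) z = 0 := by
          rw [iteratedFDeriv_const_of_ne (by omega)]; rfl
        have e5 : f = (fun _ : E n => (4 / κ - 1 : ℝ)) + (fun z => (-(4 / κ)) • (1 - ρ z)) := rfl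
        rw [e5, e2, e4, zero_add, e3]
      rw [e1, norm_smul, norm_neg, Real.norm_of_nonneg (by positivity)]
      have e6 : ‖iteratedFDeriv ℝ i (fun z => 1 - ρ z) z‖ ≤ MM l := (hM i z).trans (hMMi l i hil)
      have e7 : 1 ≤ 4 * MM l * κ⁻¹ := by
        have : 1 ≤ κ⁻¹ := (one_le_inv₀ hκ).2 hκ1.le
        have := hMM1 l
        nlinarith
      calc 4 / κ * ‖iteratedFDeriv ℝ i (fun z => 1 - ρ z) z‖ ≤ 4 / κ * MM l :=
            mul_le_mul_of_nonneg_left e6 (by positivity)
        _ = 4 * MM l * κ⁻¹ := by ring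
        _ ≤ (4 * MM l * κ⁻¹) ^ i := le_self_pow₀ e7 (by omega)
    have hC : ∀ i, i ≤ l → ‖iteratedFDeriv ℝ i hh (f z)‖ ≤ HH l := fun i hi =>
      (hH i _).trans (hHHi l i hi)
    have key := norm_iteratedFDeriv_comp_le (g := hh) (f := f) (n := l) (N := ∞)
      (hh_smooth (m := ⊤)) hfs (by exact_mod_cast le_top) z hC hD
    refine key.trans (le_of_eq ?_)
    rw [mul_pow]
    ring

end Pool.Agent.DK.H20
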